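import Mathlib

set_option maxHeartbeats 400000

namespace Pool.Agent.Results.MP_408802_co.NoConstant

open Finset Relation

open Classical in
/-- the weighted reachability `R` for the one-step relation `r` -/
noncomputable def R {V : Type} [Fintype V] (r : V → V → Prop) (w : V → ℕ) : ℕ :=
  2 * ∑ v, (w v).choose 2 + ∑ u, ∑ v, if u ≠ v ∧ ReflTransGen r u v then w u * w v else 0

abbrev Z (k : ℕ) := Fin k → Bool
abbrev V (k : ℕ) := Fin (k + 2) × Z k

variable {k : ℕ}

def fl (j : ℕ) (z : Z k) : Z k := fun i => if i.1 = j then !z i else z i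

theorem fl_fl (j : ℕ) (z : Z k) : fl j (fl j z) = z := by
  funext i; unfold fl; split_ifs <;> simp

def E (k : ℕ) : Finset (Sym2 (V k)) :=
  univ.image fun a : Fin k × Z k => s((a.1.succ.castSucc, a.2), (a.1.succ.castSucc, fl a.1 a.2))

def A (k : ℕ) : Finset (V k × V k) := univ.filter fun a => a.2.1.1 = a.1.1.1 + 1 ∧ a.2.2 = a.1.2

def w (v : V k) : ℕ := if v.1.1 = 0 ∨ v.1.1 = k + 1 then 1 else 0

theorem E_nd {e} (h : e ∈ E k) : ¬ e.IsDiag := by
  obtain ⟨⟨i, z⟩, -, rfl⟩ := mem_image.1 h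
  intro h
  have := congrFun (Prod.ext_iff.1 (Sym2.mk_isDiag_iff.1 h)).2 i
  simp [fl] at this

theorem reach (x : Z k) (j : ℕ) (hj : j < k + 2) (z : Z k) (h : ∀ i : Fin k, j ≤ i → z i = x i) :
    ReflTransGen (fun a b => (a, b) ∈ (A k).1 ∨ s(a, b) ∈ (E k).1) (0, x) (⟨j, hj⟩, z) := by
  induction j generalizing z with
  | zero => rw [show z = x from funext fun i => h i (Nat.zero_le _)]; rfl
  | succ j ih =>
    by_cases h1 : ∀ i : Fin k, j ≤ i → z i = x i
    · exact (ih (by omega) z h1).tail (.inl (by simp [A]))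
    push Not at h1
    obtain ⟨i, h1, h2⟩ := h1
    obtain rfl : j = i := by by_contra h3; exact h2 (h i (by omega))
    refine ((ih (by omega) (fl i z) fun l hl => ?_).tail (b := (⟨i, by omega⟩, fl i z))
      (c := (⟨i + 1, hj⟩, fl i z)) (.inl (by simp [A]))).tail
      (.inr (mem_image.2 ⟨(i, z), mem_univ _, Sym2.eq_swap⟩))
    unfold fl
    split_ifs with h3
    · obtain rfl : l = i := Fin.ext h3
      revert h2; cases z l <;> cases x l <;> simp
    · exact h l (by omega)

open Classical in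
noncomputable def T (o : ℕ → Z k → Prop) : ℕ → Z k → Finset (Z k)
  | 0, z => {z}
  | j + 1, z => T o j z ∪ if o j z then T o j (fl j z) else ∅

theorem T_sq (o : ℕ → Z k → Prop) (ho : ∀ j z, o j z → ¬ o j (fl j z)) (j : ℕ) :
    ∑ z, (T o j z).card ^ 2 ≤ 3 ^ j * 2 ^ k := by
  induction j with
  | zero => simp [T]
  | succ j ih =>
    have e : ∀ f : Z k → ℕ, ∑ z, f (fl j z) = ∑ z, f z := fun f =>
      Equiv.sum_comp (Function.Involutive.toPerm _ (fl_fl j)) f
    have h : ∀ z, o j z → (T o (j + 1) z).card ^ 2 + (T o (j + 1) (fl j z)).card ^ 2 ≤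
        3 * (T o j z).card ^ 2 + 3 * (T o j (fl j z)).card ^ 2 := by
      intro z hz
      rw [T, T, if_pos hz, if_neg (ho j z hz), union_empty]
      have := Nat.pow_le_pow_left (card_union_le (T o j z) (T o j (fl j z))) 2
      zify at this ⊢
      nlinarith [sq_nonneg (((T o j z).card : ℤ) - (T o j (fl j z)).card)]
    have : ∑ z, ((T o (j + 1) z).card ^ 2 + (T o (j + 1) (fl j z)).card ^ 2) ≤
        ∑ z, (3 * (T o j z).card ^ 2 + 3 * (T o j (fl j z)).card ^ 2) := sum_le_sum fun z _ => by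
      by_cases h1 : o j z
      · exact h z h1
      by_cases h2 : o j (fl j z)
      · have := h _ h2; rw [fl_fl] at this; omega
      rw [T, T, if_neg h1, if_neg h2, union_empty, union_empty]; omega
    rw [sum_add_distrib, sum_add_distrib, e fun z => (T o (j + 1) z).card ^ 2,
      e fun z => 3 * (T o j z).card ^ 2, ← mul_sum] at this
    rw [pow_succ 3, mul_right_comm]; omega

theorem R_eq (r : V k → V k → Prop) (S : Z k → Finset (Z k))
    (h : ∀ u v, u ≠ v → w u = 1 → w v = 1 →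
      (ReflTransGen r u v ↔ u.1 = 0 ∧ v.1 = Fin.last _ ∧ u.2 ∈ S v.2)) : R r w = ∑ z, (S z).card := by
  have h0 : ∀ v : V k, w v = 0 ∨ w v = 1 := fun v => by unfold w; split_ifs <;> simp
  rw [R, sum_eq_zero fun v _ => by rcases h0 v with h | h <;> simp [h], mul_zero, zero_add]
  have : ∀ u v : V k, (@ite _ (u ≠ v ∧ ReflTransGen r u v) (@instDecidableAnd _ _
      (@instDecidableNot _ (Classical.propDecidable _)) (Classical.propDecidable _)) (w u * w v) 0) =
      if u.1 = 0 then if v.1 = Fin.last _ then if u.2 ∈ S v.2 then 1 else 0 else 0 else 0 := by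
    intro u v
    rw [← ite_and, ← ite_and]
    by_cases h1 : (u.1 = 0 ∧ v.1 = Fin.last _) ∧ u.2 ∈ S v.2
    · have a : w u = 1 := by simp [w, h1.1.1]
      have b : w v = 1 := by simp [w, h1.1.2]
      have c : u ≠ v := fun e => by have := h1.1.1; rw [e, h1.1.2] at this; simp at this
      rw [if_pos h1, if_pos ⟨c, (h u v c a b).2 ⟨h1.1.1, h1.1.2, h1.2⟩⟩, a, b]
    · rw [if_neg h1]
      split_ifs with h2
      · rcases h0 u with a | a; · simp [a]
        rcases h0 v with b | b; · simp [b]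
        exact absurd (and_assoc.2 ((h u v h2.1 a b).1 h2.2)) h1
      · rfl
  rw [sum_congr rfl fun u _ => sum_congr rfl fun v _ => this u v]
  simp only [Fintype.sum_prod_type, sum_ite_irrel, sum_const_zero, sum_ite_eq', mem_univ, if_true]
  rw [sum_comm]; simp

theorem result (α : ℝ) (hα : 0 < α) : ∃ (V : Type) (_ : Fintype V) (E : Multiset (Sym2 V))
    (A : Multiset (V × V)) (w : V → ℕ), (∀ e ∈ E, ¬ e.IsDiag) ∧ (∀ a ∈ A, a.1 ≠ a.2) ∧
    ∀ D : Multiset (V × V), D.map (fun a => s(a.1, a.2)) = E →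
      (R (fun x y => (x, y) ∈ A + D) w : ℝ) < α * R (fun x y => (x, y) ∈ A ∨ s(x, y) ∈ E) w := by
  classical
  obtain ⟨k, hk⟩ := exists_pow_lt_of_lt_one (by positivity : 0 < α ^ 2 / 3) (by norm_num : (3 / 4 : ℝ) < 1)
  refine ⟨V k, inferInstance, (E k).1, (A k).1, w, fun e => E_nd, fun a ha e => ?_, fun D hD => ?_⟩
  · have := (mem_filter.1 ha).2.1; rw [e] at this; omega
  have hE : ∀ a b : V k, s(a, b) ∈ E k → ∃ j, j < k ∧ a.1.1 = j + 1 ∧ b.1 = a.1 ∧ a.2 = fl j b.2 := by
    intro a b h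
    obtain ⟨⟨i, z⟩, -, e⟩ := mem_image.1 h
    rcases Sym2.eq_iff.1 e with ⟨rfl, rfl⟩ | ⟨rfl, rfl⟩
    exacts [⟨i, i.2, rfl, rfl, (fl_fl _ _).symm⟩, ⟨i, i.2, rfl, rfl, rfl⟩]
  have lv : ∀ u v : V k, u ≠ v → w u = 1 → w v = 1 →
      ReflTransGen (fun a b => (a, b) ∈ (A k).1 ∨ s(a, b) ∈ (E k).1) u v →
        u.1 = 0 ∧ v.1 = Fin.last _ := by
    intro u v h hu hv hr
    have : u = v ∨ (u.1.1 ≤ k ∧ 1 ≤ v.1.1) := by
      clear h hv
      induction hr with
      | refl => exact .inl rfl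
      | @tail b c _ h ih =>
        have := c.1.2
        rcases h with h | h
        · have := (mem_filter.1 h).2.1
          rcases ih with rfl | ih <;> simp only at this <;> omega
        · obtain ⟨j, _, _, e, -⟩ := hE _ _ h
          rcases ih with rfl | ih <;> rw [e] <;> omega
    simp only [w, ite_eq_left_iff, zero_ne_one, imp_false, not_not] at hu hv
    simp only [Fin.ext_iff, Fin.val_zero, Fin.val_last]
    rcases this with h' | h'
    exacts [absurd h' h, by omega]
  have hDE : ∀ a b, (a, b) ∈ D → s(a, b) ∈ E k := fun a b h =>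
    show _ ∈ (E k).1 from hD ▸ Multiset.mem_map_of_mem _ h
  let o : ℕ → Z k → Prop := fun j z => ∃ l : Fin (k + 2), l.1 = j + 1 ∧ ((l, fl j z), (l, z)) ∈ D
  have ho : ∀ j z, o j z → ¬ o j (fl j z) := by
    rintro j z ⟨l, h1, h2⟩ ⟨l', h3, h4⟩
    obtain rfl : l = l' := Fin.ext (by omega)
    rw [fl_fl] at h4
    have := Multiset.inj_on_of_nodup_map (hD ▸ (E k).2) _ h2 _ h4 Sym2.eq_swap
    exact E_nd (hDE _ _ h2) (Sym2.mk_isDiag_iff.2 (Prod.ext_iff.1 this).1)
  have hT : ∀ x (v : V k), ReflTransGen (fun x y => (x, y) ∈ (A k).1 + D) (0, x) v → x ∈ T o v.1 v.2 := by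
    intro x v h
    induction h with
    | refl => simp [T]
    | @tail b c _ h ih =>
      rcases Multiset.mem_add.1 h with h | h
      · obtain ⟨-, h1, h2⟩ := mem_filter.1 h
        simp only at h1 h2
        rw [h1, h2, T]; exact mem_union_left _ ih
      · obtain ⟨j, -, h1, h2, h3⟩ := hE _ _ (hDE _ _ h)
        have : o j c.2 := ⟨b.1, h1, by rw [← h3]; nth_rewrite 2 [← h2]; exact h⟩
        rw [h1, h3, T, if_neg (ho _ _ this), union_empty] at ih
        rw [h2, h1, T, if_pos this]; exact mem_union_right _ ih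
  rw [R_eq (fun x y => (x, y) ∈ (A k).1 ∨ s(x, y) ∈ (E k).1) (fun _ => univ) fun u v h hu hv => ⟨fun hr => by simpa using lv u v h hu hv hr, fun hr => by
      obtain ⟨u, x⟩ := u; obtain ⟨v, z⟩ := v; obtain ⟨rfl, rfl, -⟩ := hr
      exact reach x (k + 1) _ z fun i hi => by omega⟩,
    R_eq (fun x y => (x, y) ∈ (A k).1 + D) (fun z => univ.filter fun x => ReflTransGen (fun x y => (x, y) ∈ (A k).1 + D) (0, x)
      (Fin.last _, z)) fun u v h hu hv => ?_]
  · have h1 := T_sq o ho (k + 1)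
    have h2 := sq_sum_le_card_mul_sum_sq (s := univ) (f := fun z => (T o (k + 1) z).card)
    have h3 : ∑ z, (univ.filter fun x => ReflTransGen (fun x y => (x, y) ∈ (A k).1 + D) (0, x)
        (Fin.last _, z)).card ≤ ∑ z, (T o (k + 1) z).card :=
      sum_le_sum fun z _ => card_le_card fun x hx => hT x _ (mem_filter.1 hx).2
    have h4 := (Nat.pow_le_pow_left h3 2).trans (h2.trans (Nat.mul_le_mul_left _ h1))
    generalize ∑ z : Z k, (univ.filter fun x => ReflTransGen (fun x y => (x, y) ∈ (A k).1 + D) (0, x)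
        (Fin.last _, z)).card = N at h4
    simp only [card_univ, Fintype.card_pi, Fintype.card_bool, prod_const, Fintype.card_fin, sum_const,
      smul_eq_mul] at h4 ⊢
    have h5 : (N : ℝ) ^ 2 ≤ 2 ^ k * (3 ^ (k + 1) * 2 ^ k) := by exact_mod_cast h4
    refine lt_of_pow_lt_pow_left₀ 2 (by positivity) (h5.trans_lt ?_)
    rw [div_pow, div_lt_div_iff₀ (by positivity) (by positivity)] at hk
    have e : (4 : ℝ) ^ k = 2 ^ k * 2 ^ k := by rw [← mul_pow]; norm_num
    push_cast
    rw [e] at hk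
    have : (0 : ℝ) < 2 ^ k * 2 ^ k := by positivity
    rw [pow_succ]; nlinarith
  · refine ⟨fun hr => ?_, fun hr => ?_⟩
    · obtain ⟨h1, h2⟩ := lv u v h hu hv (ReflTransGen.mono (fun a b h =>
        (Multiset.mem_add.1 h).imp_right (hDE a b)) _ _ hr)
      exact ⟨h1, h2, mem_filter.2 ⟨mem_univ _, by rw [← h1, ← h2]; exact hr⟩⟩
    · obtain ⟨u, x⟩ := u; obtain ⟨v, z⟩ := v; obtain ⟨rfl, rfl, h⟩ := hr
      exact (mem_filter.1 h).2

end Pool.Agent.Results.MP_408802_co.NoConstant
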